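import Pool.Agent.Helper89.UB.Stmts

set_option autoImplicit false

open Finset

namespace Pool.Agent.Helper89.UB

theorem surc_mem {n : ℕ} (E : Finset (Finset (Fin n))) (W : Finset (Fin n)) (m : ℕ)
    (c : Fin m → Finset (Fin n)) : c ∈ OP E W m ↔
      ((∀ i, (c i).Nonempty) ∧ (∀ i j, i ≠ j → Disjoint (c i) (c j)) ∧
    (∀ v, v ∈ W ↔ ∃ i, v ∈ c i) ∧ ∀ i, Al E (c i)) := by
  classical
  unfold OP
  simp only [mem_filter, mem_univ, true_and]

theorem surc_cons {n : ℕ} (E : Finset (Finset (Fin n))) (W S : Finset (Fin n)) (m : ℕ)
    (hS : S ⊆ W) (t : Fin m → Finset (Fin n)) :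
    (Fin.cons S t : Fin (m + 1) → Finset (Fin n)) ∈ OP E W (m + 1) ↔
      (S.Nonempty ∧ Al E S) ∧ t ∈ OP E (W \ S) m := by
  rw [surc_mem, surc_mem]
  constructor
  · rintro ⟨h1, h2, h3, h4⟩
    have hd : ∀ i : Fin m, Disjoint S (t i) := by
      intro i
      have := h2 0 i.succ (Fin.succ_ne_zero i).symm
      simpa using this
    refine ⟨⟨by simpa using h1 0, by simpa using h4 0⟩, ?_, ?_, ?_, ?_⟩
    · intro i
      simpa using h1 i.succ
    · intro i j hij
      have := h2 i.succ j.succ (fun h => hij (Fin.succ_injective _ h))
      simpa using this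
    · intro v
      rw [mem_sdiff, h3 v]
      constructor
      · rintro ⟨⟨i, hi⟩, hv⟩
        refine Fin.cases ?_ ?_ i hi
        · intro h
          exact absurd (by simpa using h) hv
        · intro j hj
          exact ⟨j, by simpa using hj⟩
      · rintro ⟨j, hj⟩
        refine ⟨⟨j.succ, by simpa using hj⟩, ?_⟩
        intro hv
        exact (Finset.disjoint_left.1 (hd j)) hv hj
    · intro i
      simpa using h4 i.succ
  · rintro ⟨⟨hn, ha⟩, h1, h2, h3, h4⟩
    have hd : ∀ i : Fin m, Disjoint S (t i) := by
      intro i
      rw [Finset.disjoint_left]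
      intro v hv hi
      have := (h3 v).2 ⟨i, hi⟩
      exact (mem_sdiff.1 this).2 hv
    refine ⟨?_, ?_, ?_, ?_⟩
    · intro i
      refine Fin.cases ?_ ?_ i
      · simpa using hn
      · intro j
        simpa using h1 j
    · intro i j
      refine Fin.cases ?_ ?_ i
      · refine Fin.cases ?_ ?_ j
        · intro h
          exact absurd rfl h
        · intro j' _
          simpa using hd j'
      · intro i'
        refine Fin.cases ?_ ?_ j
        · intro _
          simpa using (hd i').symm
        · intro j' h
          have := h2 i' j' (fun h' => h (by rw [h']))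
          simpa using this
    · intro v
      constructor
      · intro hv
        by_cases hvS : v ∈ S
        · exact ⟨0, by simpa using hvS⟩
        · obtain ⟨j, hj⟩ := (h3 v).1 (mem_sdiff.2 ⟨hv, hvS⟩)
          exact ⟨j.succ, by simpa using hj⟩
      · rintro ⟨i, hi⟩
        revert hi
        refine Fin.cases ?_ ?_ i
        · intro h
          exact hS (by simpa using h)
        · intro j hj
          have : v ∈ W \ S := (h3 v).2 ⟨j, by simpa using hj⟩
          exact (mem_sdiff.1 this).1
    · intro i
      refine Fin.cases ?_ ?_ i
      · simpa using ha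
      · intro j
        simpa using h4 j

theorem st_SURC : ST_SURC := by
  classical
  intro n E m
  induction m with
  | zero =>
    intro W
    show ((OP E W 0).card : ℤ) = if W = ∅ then 1 else 0
    split_ifs with hW
    · have : OP E W 0 = {Fin.elim0} := by
        ext c
        rw [surc_mem, mem_singleton]
        constructor
        · intro _
          exact Subsingleton.elim _ _
        · intro _
          refine ⟨fun i => i.elim0, fun i => i.elim0, ?_, fun i => i.elim0⟩
          intro v
          constructor
          · intro hv
            rw [hW] at hv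
            simp at hv
          · rintro ⟨i, _⟩
            exact i.elim0
      rw [this]
      simp
    · have : OP E W 0 = ∅ := by
        rw [Finset.eq_empty_iff_forall_notMem]
        intro c hc
        rw [surc_mem] at hc
        obtain ⟨v, hv⟩ := Finset.nonempty_iff_ne_empty.2 hW
        obtain ⟨i, _⟩ := (hc.2.2.1 v).1 hv
        exact i.elim0
      rw [this]
      simp
  | succ m ih =>
    intro W
    show ((OP E W (m + 1)).card : ℤ) = ∑ S ∈ W.powerset, fp E S * pw (fp E) m (W \ S)
    have hmap : ∀ c ∈ OP E W (m + 1), c 0 ∈ W.powerset := by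
      intro c hc
      rw [surc_mem] at hc
      rw [mem_powerset]
      intro v hv
      exact (hc.2.2.1 v).2 ⟨0, hv⟩
    rw [Finset.card_eq_sum_card_fiberwise hmap]
    push_cast
    apply sum_congr rfl
    intro S hS
    rw [mem_powerset] at hS
    rw [← ih (W \ S)]
    unfold fp sur
    split_ifs with hc
    · rw [one_mul, Nat.cast_inj]
      symm
      apply Finset.card_bij (fun (t : Fin m → Finset (Fin n)) _ => (Fin.cons S t : Fin (m + 1) → Finset (Fin n)))
      · intro t ht
        rw [mem_filter]
        exact ⟨(surc_cons E W S m hS t).2 ⟨hc, ht⟩, by simp⟩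
      · intro t _ t' _ h
        exact (Fin.cons_injective2 h).2
      · intro c hc'
        rw [mem_filter] at hc'
        refine ⟨Fin.tail c, ?_, ?_⟩
        · have h1 : (Fin.cons S (Fin.tail c) : Fin (m + 1) → Finset (Fin n)) = c := by
            rw [← hc'.2]
            exact Fin.cons_self_tail c
          have h2 := hc'.1
          rw [← h1] at h2
          exact ((surc_cons E W S m hS _).1 h2).2
        · show (Fin.cons S (Fin.tail c) : Fin (m + 1) → Finset (Fin n)) = c
          rw [← hc'.2]
          exact Fin.cons_self_tail c
    · rw [zero_mul]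
      norm_cast
      rw [Finset.card_eq_zero, Finset.eq_empty_iff_forall_notMem]
      intro c hc'
      rw [mem_filter] at hc'
      have h1 : (Fin.cons S (Fin.tail c) : Fin (m + 1) → Finset (Fin n)) = c := by
        rw [← hc'.2]
        exact Fin.cons_self_tail c
      have h2 := hc'.1
      rw [← h1] at h2
      exact hc ((surc_cons E W S m hS _).1 h2).1

end Pool.Agent.Helper89.UB
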